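import Pool.Agent.Helper32.CL.St2

/-!
# Project CL (MP_b2fa09_gt), module SS: smoothness in space and time
-/

set_option autoImplicit false

namespace Pool.Agent.Helper52.CL

open Helper32.CL Helper35.PI Helper35.PI2
open scoped ContDiff Manifold Topology ENNReal BigOperators
open MeasureTheory Set Filter

/-- spatial derivative of a slice -/
theorem slice_eq {n : ℕ} {V : Type*} [NormedAddCommGroup V] [NormedSpace ℝ V]
    {Φ : EE n × ℝ → V} {z : EE n × ℝ} (h : DifferentiableAt ℝ Φ z) (k : Fin n) :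
    fderiv ℝ (fun y => Φ (y, z.2)) z.1 (ee k) = jg Φ z k := by
  unfold jg
  have h1 : HasFDerivAt (fun y : EE n => (y, z.2)) (ContinuousLinearMap.inl ℝ (EE n) ℝ) z.1 :=
    hasFDerivAt_prodMk_left z.1 z.2
  have h0 : HasFDerivAt Φ (fderiv ℝ Φ z) (z.1, z.2) := h.hasFDerivAt
  have h2 : HasFDerivAt (fun y => Φ (y, z.2))
      ((fderiv ℝ Φ z).comp (ContinuousLinearMap.inl ℝ (EE n) ℝ)) z.1 :=
    HasFDerivAt.comp (f := fun y : EE n => (y, z.2)) z.1 h0 h1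
  rw [h2.fderiv]
  simp

theorem slice_cd {n : ℕ} {V : Type*} [NormedAddCommGroup V] [NormedSpace ℝ V]
    {Φ : EE n × ℝ → V} {z₀ : EE n × ℝ} (h : ContDiffAt ℝ ∞ Φ z₀) (k : Fin n) :
    ContDiffAt ℝ ∞ (fun z => fderiv ℝ (fun y => Φ (y, z.2)) z.1 (ee k)) z₀ := by
  have h1 : ContDiffAt ℝ ∞ (fun z => jg Φ z k) z₀ := by
    unfold jg
    exact (h.fderiv_right (m := ∞) le_rfl).clm_apply contDiffAt_const
  refine h1.congr_of_eventuallyEq ?_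
  have h2 : ContDiffAt ℝ 1 Φ z₀ := h.of_le (by exact_mod_cast le_top)
  filter_upwards [h2.eventually (by simp)] with z hz
  exact slice_eq (hz.differentiableAt (by norm_num)) k

section gen

variable {n N : ℕ} {z₀ : EE n × ℝ}

private theorem gen_nrm (G : Fin n → Fin n → EE n × ℝ → ℝ) (D : Fin n → EE n × ℝ → EE N)
    (v : EE n × ℝ → EE N) (hG : ∀ i j, ContDiffAt ℝ ∞ (G i j) z₀) (hD : ∀ i, ContDiffAt ℝ ∞ (D i) z₀)
    (hv : ContDiffAt ℝ ∞ v z₀) :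
    ContDiffAt ℝ ∞ (fun z => v z - ∑ k, ∑ m, (G k m z * inner ℝ (v z) (D k z)) • D m z) z₀ :=
  hv.sub (ContDiffAt.sum fun k _ => ContDiffAt.sum fun m _ =>
    ((hG k m).mul (hv.inner ℝ (hD k))).smul (hD m))

private theorem gen_comp {V : Type} [NormedAddCommGroup V] [NormedSpace ℝ V] (g : V → ℝ)
    (F : EE n × ℝ → V) (hg : ContDiff ℝ ∞ g) (hF : ContDiffAt ℝ ∞ F z₀) :
    ContDiffAt ℝ ∞ (fun z => g (F z)) z₀ :=
  hg.contDiffAt.comp z₀ hF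

private theorem gen_add (v w : EE n × ℝ → EE N) (l : ℝ) (hv : ContDiffAt ℝ ∞ v z₀)
    (hw : ContDiffAt ℝ ∞ w z₀) : ContDiffAt ℝ ∞ (fun z => v z + l • w z) z₀ :=
  hv.add (hw.const_smul l)

private theorem gen_add2 (a b : EE n × ℝ → ℝ) (v w : EE n × ℝ → EE N) (ha : ContDiffAt ℝ ∞ a z₀)
    (hb : ContDiffAt ℝ ∞ b z₀) (hv : ContDiffAt ℝ ∞ v z₀)
    (hw : ContDiffAt ℝ ∞ w z₀) : ContDiffAt ℝ ∞ (fun z => a z • v z + b z • w z) z₀ :=
  (ha.smul hv).add (hb.smul hw)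

private theorem gen_i3 (q y : EE n × ℝ → ℝ) (M : EE n × ℝ → EE N) (hq : ContDiffAt ℝ ∞ q z₀)
    (hM : ContDiffAt ℝ ∞ M z₀) (hy : ContDiffAt ℝ ∞ y z₀) :
    ContDiffAt ℝ ∞ (fun z => (q z, ‖M z‖ ^ 2, y z)) z₀ :=
  hq.prodMk ((hM.norm_sq ℝ).prodMk hy)

private theorem gen_i4 (q y : EE n × ℝ → ℝ) (M W : EE n × ℝ → EE N) (hq : ContDiffAt ℝ ∞ q z₀)
    (hM : ContDiffAt ℝ ∞ M z₀) (hy : ContDiffAt ℝ ∞ y z₀) (hW : ContDiffAt ℝ ∞ W z₀) :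
    ContDiffAt ℝ ∞ (fun z => (q z, ‖M z‖ ^ 2, y z, ‖W z‖ ^ 2)) z₀ :=
  hq.prodMk ((hM.norm_sq ℝ).prodMk (hy.prodMk (hW.norm_sq ℝ)))

private theorem gen_uvf (G : Fin n → Fin n → EE n × ℝ → ℝ) (S : Fin n → Fin n → EE n × ℝ → EE N)
    (M : EE n × ℝ → EE N) (hG : ∀ i j, ContDiffAt ℝ ∞ (G i j) z₀)
    (hS : ∀ i j, ContDiffAt ℝ ∞ (S i j) z₀) (hM : ContDiffAt ℝ ∞ M z₀) :
    ContDiffAt ℝ ∞ (fun z => ∑ i, ∑ j, ∑ k, ∑ l, (G i k z * G j l z *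
      inner ℝ (S k l z) (M z)) • S i j z) z₀ :=
  ContDiffAt.sum fun i _ => ContDiffAt.sum fun j _ => ContDiffAt.sum fun k _ =>
    ContDiffAt.sum fun m _ => (((hG i k).mul (hG j m)).mul ((hS k m).inner ℝ hM)).smul (hS i j)

private theorem gen_wc (G : Fin n → Fin n → EE n × ℝ → ℝ) (S : Fin n → Fin n → EE n × ℝ → EE N)
    (D : Fin n → EE n × ℝ → EE N) (f ν : EE n × ℝ → EE N) (F a₂ : EE n × ℝ → ℝ) (κ : ℝ) (k : Fin n)
    (hG : ∀ i j, ContDiffAt ℝ ∞ (G i j) z₀)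
    (hS : ∀ i j, ContDiffAt ℝ ∞ (S i j) z₀) (hD : ∀ i, ContDiffAt ℝ ∞ (D i) z₀)
    (hf : ContDiffAt ℝ ∞ f z₀) (hν : ContDiffAt ℝ ∞ ν z₀) (hF : ContDiffAt ℝ ∞ F z₀)
    (h2 : ContDiffAt ℝ ∞ a₂ z₀) :
    ContDiffAt ℝ ∞ (fun z => Real.exp (-(κ * ‖f z‖ ^ 2 / 2)) *
      (F z + κ * (a₂ z * inner ℝ (f z) (D k z) +
        ∑ a, ∑ m, G a m z * (inner ℝ (ν z) (S k a z) * inner ℝ (f z) (D m z))))) z₀ := by
  have hexp : ContDiffAt ℝ ∞ (fun z => Real.exp (-(κ * ‖f z‖ ^ 2 / 2))) z₀ := by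
    refine ContDiffAt.exp ?_
    exact ((contDiffAt_const.mul (hf.norm_sq ℝ)).div_const 2).neg
  have hsum : ContDiffAt ℝ ∞ (fun z => ∑ a, ∑ m, G a m z *
      ((inner ℝ (ν z) (S k a z) : ℝ) * (inner ℝ (f z) (D m z) : ℝ))) z₀ :=
    ContDiffAt.sum fun a _ => ContDiffAt.sum fun m _ =>
      (hG a m).mul ((hν.inner ℝ (hS k a)).mul (hf.inner ℝ (hD m)))
  exact hexp.mul (hF.add (contDiffAt_const.mul ((h2.mul (hf.inner ℝ (hD k))).add hsum)))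

private theorem gen_wf (G : Fin n → Fin n → EE n × ℝ → ℝ) (w : Fin n → EE n × ℝ → ℝ)
    (D : Fin n → EE n × ℝ → EE N)
    (hG : ∀ i j, ContDiffAt ℝ ∞ (G i j) z₀) (hw : ∀ i, ContDiffAt ℝ ∞ (w i) z₀)
    (hD : ∀ i, ContDiffAt ℝ ∞ (D i) z₀) :
    ContDiffAt ℝ ∞ (fun z => ∑ k, ∑ m, (G k m z * w k z) • D m z) z₀ :=
  ContDiffAt.sum fun k _ => ContDiffAt.sum fun m _ => ((hG k m).mul (hw k)).smul (hD m)

private theorem gen_dv (G : Fin n → Fin n → EE n × ℝ → ℝ) (X : Fin n → EE n × ℝ → EE N)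
    (D : Fin n → EE n × ℝ → EE N)
    (hG : ∀ i j, ContDiffAt ℝ ∞ (G i j) z₀) (hX : ∀ i, ContDiffAt ℝ ∞ (X i) z₀)
    (hD : ∀ i, ContDiffAt ℝ ∞ (D i) z₀) :
    ContDiffAt ℝ ∞ (fun z => ∑ i, ∑ j, G i j z * inner ℝ (X i z) (D j z)) z₀ :=
  ContDiffAt.sum fun i _ => ContDiffAt.sum fun j _ => (hG i j).mul ((hX i).inner ℝ (hD j))

end gen

theorem hSS (hSM : StSM) (hFR : StFR) (hNR : StNR) : StSS := by
  intro n N f z₀ hf hLI κ l c hc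
  obtain ⟨-, -, -, -, -, hG, hS, hM, hQ, hZ⟩ := hSM n N f z₀ hf hLI
  have hD : ∀ i, ContDiffAt ℝ ∞ (fun z => dv1 (fun y => f (y, z.2)) z.1 i) z₀ :=
    fun i => slice_cd hf i
  have hW : ContDiffAt ℝ ∞ (fun z => wvl l (fun y => f (y, z.2)) z.1) z₀ :=
    gen_add (fun z => nrm (fun y => f (y, z.2)) z.1 (f z))
      (fun z => mcv (fun y => f (y, z.2)) z.1) l (gen_nrm _ _ f hG hD hf) hM
  have h3 : ContDiffAt ℝ ∞ (fun z => i3 (fun y => f (y, z.2)) z.1) z₀ := gen_i3 _ _ _ hQ hM hZ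
  have h4 : ContDiffAt ℝ ∞ (fun z => i4 l (fun y => f (y, z.2)) z.1) z₀ :=
    gen_i4 _ _ _ _ hQ hM hZ hW
  have hU : ContDiffAt ℝ ∞ (fun z => uvf (fun y => f (y, z.2)) z.1) z₀ := gen_uvf _ _ _ hG hS hM
  have ha1 : ContDiffAt ℝ ∞ (fun z => c.a₁ (i3 (fun y => f (y, z.2)) z.1)) z₀ :=
    gen_comp c.a₁ (fun z => i3 (fun y => f (y, z.2)) z.1) hc.s₁ h3
  have ha2 : ContDiffAt ℝ ∞ (fun z => c.a₂ (i3 (fun y => f (y, z.2)) z.1)) z₀ :=
    gen_comp c.a₂ (fun z => i3 (fun y => f (y, z.2)) z.1) hc.s₂ h3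
  have ha3 : ContDiffAt ℝ ∞ (fun z => c.a₃ (i3 (fun y => f (y, z.2)) z.1)) z₀ :=
    gen_comp c.a₃ (fun z => i3 (fun y => f (y, z.2)) z.1) hc.s₃ h3
  have hphi : ContDiffAt ℝ ∞ (fun z => c.φ (i4 l (fun y => f (y, z.2)) z.1)) z₀ :=
    gen_comp c.φ (fun z => i4 l (fun y => f (y, z.2)) z.1) hc.sφ h4
  have hnv : ContDiffAt ℝ ∞ (fun z => nvf c (fun y => f (y, z.2)) z.1) z₀ :=
    gen_add2 (fun z => c.a₁ (i3 (fun y => f (y, z.2)) z.1))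
      (fun z => c.a₃ (i3 (fun y => f (y, z.2)) z.1)) (fun z => mcv (fun y => f (y, z.2)) z.1)
      (fun z => uvf (fun y => f (y, z.2)) z.1) ha1 ha3 hM hU
  have hwc : ∀ k, ContDiffAt ℝ ∞ (fun z => wc κ l c (fun y => f (y, z.2)) z.1 k) z₀ := by
    intro k
    exact gen_wc (fun i j z => (gram (fun y => f (y, z.2)) z.1)⁻¹ i j)
      (fun i j z => sff (fun y => f (y, z.2)) z.1 i j)
      (fun i z => dv1 (fun y => f (y, z.2)) z.1 i) f (fun z => nvf c (fun y => f (y, z.2)) z.1)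
      (fun z => fderiv ℝ (fun y => c.φ (i4 l (fun y => f (y, z.2)) y)) z.1 (ee k))
      (fun z => c.a₂ (i3 (fun y => f (y, z.2)) z.1)) κ k hG hS hD hf hnv (slice_cd hphi k) ha2
  have hwf : ContDiffAt ℝ ∞ (fun z => wf κ l c (fun y => f (y, z.2)) z.1) z₀ :=
    gen_wf (fun i j z => (gram (fun y => f (y, z.2)) z.1)⁻¹ i j)
      (fun k z => wc κ l c (fun y => f (y, z.2)) z.1 k)
      (fun i z => dv1 (fun y => f (y, z.2)) z.1 i) hG hwc hD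
  have hdv : ContDiffAt ℝ ∞ (fun z => dvc (fun y => f (y, z.2))
      (wf κ l c (fun y => f (y, z.2))) z.1) z₀ :=
    gen_dv (fun i j z => (gram (fun y => f (y, z.2)) z.1)⁻¹ i j)
      (fun k z => fderiv ℝ (wf κ l c (fun y => f (y, z.2))) z.1 (ee k))
      (fun i z => dv1 (fun y => f (y, z.2)) z.1 i) hG (fun k => slice_cd hwf k) hD
  refine ⟨h4, hW, hU, hwc, hwf, hdv, ?_, ?_, ?_⟩
  · intro k
    have hu := (hFR n N _ z₀.1 hLI).2.1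
    set g : EE n → EE N := fun y => f (y, z₀.2) with hg
    have hinv : (gram g z₀.1)⁻¹ * gram g z₀.1 = 1 := Matrix.nonsing_inv_mul _ hu
    have h5 : ∀ j, ∑ m, (gram g z₀.1)⁻¹ j m * inner ℝ (dv1 g z₀.1 m) (dv1 g z₀.1 k) =
        if j = k then (1 : ℝ) else 0 := by
      intro j
      have := congrFun (congrFun hinv j) k
      rw [Matrix.mul_apply, Matrix.one_apply] at this
      exact this
    unfold wf
    simp only [sum_inner, real_inner_smul_left]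
    have h6 : ∀ j, ∑ m, (gram g z₀.1)⁻¹ j m * wc κ l c g z₀.1 j *
        inner ℝ (dv1 g z₀.1 m) (dv1 g z₀.1 k) = wc κ l c g z₀.1 j * (if j = k then (1 : ℝ) else 0) := by
      intro j
      rw [← h5 j, Finset.mul_sum]
      exact Finset.sum_congr rfl fun m _ => by ring
    rw [Finset.sum_congr rfl fun j _ => h6 j]
    simp
  · unfold wf
    refine Submodule.sum_mem _ fun k _ => Submodule.sum_mem _ fun m _ => ?_
    exact Submodule.smul_mem _ _ (Submodule.subset_span ⟨m, rfl⟩)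
  · have h6 : ∀ m, (inner ℝ (mcv (fun y => f (y, z₀.2)) z₀.1) (dv1 (fun y => f (y, z₀.2)) z₀.1 m)
        : ℝ) = 0 := by
      intro m
      unfold mcv
      simp only [sum_inner, real_inner_smul_left]
      refine Finset.sum_eq_zero fun i _ => Finset.sum_eq_zero fun j _ => ?_
      unfold sff
      rw [(hNR n N _ z₀.1 hLI).1, mul_zero]
    unfold wf
    simp only [inner_sum, real_inner_smul_right, h6, mul_zero, Finset.sum_const_zero]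

end Pool.Agent.Helper52.CL
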